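import Mathlib

set_option autoImplicit false

/-!
# Triangular lattice: basic definitions (for MP_40ab69_co)

Points are `ℤ × ℤ`; the six unit directions are `e 0, …, e 5` in counterclockwise order
(`e (d+3) = -e d`, `e (d+1) = e d + e (d+2)`).
A lattice triangle is `(p, false) = {p, p+e0, p+e1}` or `(p, true) = {p+e0, p+e1, p+e0+e1}`.
`sec p k` is the triangle at `p` lying between directions `e k` and `e (k+1)`.
The dart `(p,d)` runs from `p` to `p + e d`; its left triangle is `sec p d`, its right triangle
is `sec p (d+5)`.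
-/

namespace Pool.Agent.Helper16.Tri

/-- lattice points -/
abbrev V := ℤ × ℤ

/-- the six unit directions, counterclockwise -/
def e : Fin 6 → V := ![(1,0), (0,1), (-1,1), (-1,0), (0,-1), (1,-1)]

/-- triangles of the lattice -/
abbrev Tr := (ℤ × ℤ) × Bool

/-- `sec p k`: the triangle at `p` between `e k` and `e (k+1)` -/
def sec (p : V) : Fin 6 → Tr :=
  ![(p, false), (p + (-1,0), true), (p + (-1,0), false), (p + (-1,-1), true),
    (p + (0,-1), false), (p + (0,-1), true)]

/-- `bd D p d`: the edge from `p` to `p + e d` lies on the boundary of the set `D` of triangles. -/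
def bd (D : Finset Tr) (p : V) (d : Fin 6) : Prop :=
  ¬ (sec p d ∈ D ↔ sec p (d + 5) ∈ D)

instance (D : Finset Tr) (p : V) (d : Fin 6) : Decidable (bd D p d) := by
  unfold bd; infer_instance

/-- the dart `(p,d)` is a boundary dart of `D` having `D` on its left. -/
def out (D : Finset Tr) (p : V) (d : Fin 6) : Prop :=
  sec p d ∈ D ∧ sec p (d + 5) ∉ D

instance (D : Finset Tr) (p : V) (d : Fin 6) : Decidable (out D p d) := by
  unfold out; infer_instance

/-- the three darts having the triangle `t` on the left. -/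
def darts (t : Tr) : Finset (V × Fin 6) :=
  if t.2 then {(t.1 + (1,0), 1), (t.1 + (1,1), 3), (t.1 + (0,1), 5)}
  else {(t.1, 0), (t.1 + (1,0), 2), (t.1 + (0,1), 4)}

/-- the finset of boundary darts of `D` with `D` on the left. -/
def O (D : Finset Tr) : Finset (V × Fin 6) :=
  (D.biUnion darts).filter (fun x => sec x.1 (x.2 + 5) ∉ D)

/-! ## direction arithmetic -/

theorem e_add_three (d : Fin 6) : e (d + 3) = - e d := by revert d; decide
theorem e_succ (d : Fin 6) : e (d + 1) = e d + e (d + 2) := by revert d; decide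
theorem e_add_two (d : Fin 6) : e (d + 2) = e (d + 1) - e d := by revert d; decide
theorem e_add_four (d : Fin 6) : e (d + 4) = - e (d + 1) := by revert d; decide
theorem e_add_five (d : Fin 6) : e (d + 5) = e d - e (d + 1) := by revert d; decide
theorem e_ne_zero (d : Fin 6) : e d ≠ 0 := by revert d; decide
theorem e_injective : Function.Injective e := by decide

theorem sec_shift (p : V) (k : Fin 6) : sec (p + e k) (k + 2) = sec p k := by
  fin_cases k <;> simp [sec, e, Prod.ext_iff]

theorem sec_shift' (p : V) (k : Fin 6) : sec (p + e (k + 1)) (k + 4) = sec p k := by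
  fin_cases k <;> simp [sec, e, Prod.ext_iff]

theorem f6_51 : ∀ d : Fin 6, d + 5 + 1 = d := by decide
theorem f6_54 : ∀ d : Fin 6, d + 5 + 4 = d + 3 := by decide
theorem f6_35 : ∀ d : Fin 6, d + 3 + 5 = d + 2 := by decide
theorem f6_33 : ∀ d : Fin 6, d + 3 + 3 = d := by decide

/-- reversing a dart: its left triangle is the right triangle of the original -/
theorem sec_rev (p : V) (d : Fin 6) : sec (p + e d) (d + 3) = sec p (d + 5) := by
  have h := sec_shift' p (d + 5)
  rwa [f6_51, f6_54] at h

theorem mem_darts (t : Tr) (p : V) (d : Fin 6) : (p, d) ∈ darts t ↔ sec p d = t := by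
  obtain ⟨⟨a, b⟩, s⟩ := t
  obtain ⟨x, y⟩ := p
  cases s <;> fin_cases d <;> simp [darts, sec, Prod.ext_iff] <;> omega

theorem mem_O (D : Finset Tr) (x : V × Fin 6) : x ∈ O D ↔ out D x.1 x.2 := by
  obtain ⟨p, d⟩ := x
  simp only [O, Finset.mem_filter, Finset.mem_biUnion, out]
  constructor
  · rintro ⟨⟨t, ht, h⟩, h2⟩
    rw [mem_darts] at h
    exact ⟨h ▸ ht, h2⟩
  · rintro ⟨h1, h2⟩
    exact ⟨⟨_, h1, (mem_darts _ _ _).2 rfl⟩, h2⟩

theorem bd_rev (D : Finset Tr) (p : V) (d : Fin 6) : bd D (p + e d) (d + 3) ↔ bd D p d := by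
  have h1 := sec_rev p d
  have h2 : sec (p + e d) (d + 3 + 5) = sec p d := by
    have h := sec_shift p d
    rw [f6_35]; exact h
  unfold bd
  rw [h1, h2]
  tauto

end Pool.Agent.Helper16.Tri
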